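import Pool.Agent.Helper415_WM.KIone

/-! # Inner distortion and the dimension of the branch set -/

set_option autoImplicit false
open MeasureTheory Metric Set Filter Topology
open scoped ENNReal NNReal ContDiff

namespace Pool.Agent.Results.MP_680515_an.BranchDimension

open Helper415.WM

theorem result {Ω : Set R3} {f : R3 → R3} {ψ φ : OpenPartialHomeomorph R3 R3}
    (h : Fac Ω f ψ φ) {g : R3 → L3} {K₀ : ℝ} (hK₀ : 1 ≤ K₀) (hq : QReg Ω f g K₀) :
    (∀ E ⊆ branch Ω f, hd E ≠ 0 → 2 * hd (f '' E) ^ 2 ≤ KI Ω g * hd E ^ 2) ∧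
    (∀ N : Set R3, IsOpen N → (branch Ω f ∩ N).Nonempty →
      1 ≤ hd (branch Ω f ∩ N) ∧ 1 ≤ hd (f '' (branch Ω f ∩ N)) ∧
      (hd (branch Ω f ∩ N) = 1 ∨ Expands f (branch Ω f ∩ N) → 2 ≤ KI Ω g)) := by
  refine ⟨fun E hE hE0 => h.dim_ineq hK₀ hq hE hE0, fun N hN hne => ?_⟩
  obtain ⟨h1, h2⟩ := h.dim_lower hN hne
  refine ⟨h1, h2, fun h3 => ?_⟩
  refine h.two_le hK₀ hq inter_subset_left (ne_of_gt (lt_of_lt_of_le one_pos h1)) ?_
  rcases h3 with h3 | ⟨c, hc, h3⟩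
  · exact h3.le.trans h2
  · exact dim_expand hc h3

end Pool.Agent.Results.MP_680515_an.BranchDimension
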